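import Pool.Agent.Q199.FN.Main

set_option autoImplicit false

namespace Pool.Agent.Results.MP_43bafb_an.NormAttainingExtensions

open Pool.Agent.Q199.FN

universe u

/-- Let `1 ≤ p < ∞`, let `E` be a real Banach space and let `L`, with the isometric embedding `δ`,
be the free `p`-convex Banach lattice over `E`. Every bounded functional `xs` on `E` has exactly
one extension `φ` to a lattice homomorphism on `L`, it has the norm of `xs`, and `xs` attains its
norm on `E` if and only if `φ` attains its norm on `L`. -/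
theorem result (p : ℝ) (hp : 1 ≤ p) (E L : Type u)
    [NormedAddCommGroup E] [NormedSpace ℝ E] [CompleteSpace E]
    [NormedAddCommGroup L] [Lattice L] [HasSolidNorm L] [IsOrderedAddMonoid L] [NormedSpace ℝ L]
    [CompleteSpace L] (δ : E →ₗᵢ[ℝ] L) (hL : IsFree p E L δ) (xs : E →L[ℝ] ℝ) :
    ∃ φ : L →L[ℝ] ℝ, IsLatHom φ ∧ (∀ x, φ (δ x) = xs x) ∧
      (∀ ψ : L →L[ℝ] ℝ, IsLatHom ψ → (∀ x, ψ (δ x) = xs x) → ψ = φ) ∧
      ‖φ‖ = ‖xs‖ ∧ (Attains xs ↔ Attains φ) := by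
  refine ⟨hL.hat hp xs, hL.hat_lat hp xs, hL.hat_del hp xs,
    fun ψ h1 h2 => hL.hat_unique hp xs ψ h1 h2, ?_,
    attains_iff hL hp xs _ (hL.hat_lat hp xs) (hL.hat_del hp xs)⟩
  apply le_antisymm (hL.hat_norm hp xs)
  apply ContinuousLinearMap.opNorm_le_bound _ (norm_nonneg _)
  intro x
  rw [← hL.hat_del hp xs x]
  calc ‖hL.hat hp xs (δ x)‖ ≤ ‖hL.hat hp xs‖ * ‖δ x‖ := (hL.hat hp xs).le_opNorm _
    _ = ‖hL.hat hp xs‖ * ‖x‖ := by rw [δ.norm_map]

end Pool.Agent.Results.MP_43bafb_an.NormAttainingExtensions
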